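import Pool.Agent.Lib.MP_c7af3c_ag.EDGE.C2.H59.Nofc
import Pool.Agent.Lib.MP_c7af3c_ag.SHARP.H54.NoLines

/-!
# MP_c7af3c_ag, project T2C: no plane curves of small degree (row NOCURVE)
The count is `nofactor_gen` of helper65 (EDGE/H65/NoFactor.lean).
-/

set_option autoImplicit false

namespace Pool.Agent.T2C.H2

open MvPolynomial Pool.Agent.Gen Pool.Agent.Sharp Pool.Agent.Edge
open Pool.Agent.Edge.H65 (ssub ssub_hom nofactor_gen)
open Pool.Agent.Edge.C2.H59 (factor_U3)

section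

variable {L : Type} [Field L] {n c : ℕ} {d : Fin c → ℕ} (D : DSys L n c d)

/-- NOCURVE: the restrictions to a plane have no common factor of degree `e` -/
theorem nocurve {u : Fin 3 → Fin (n + 1) → L} (hu : LinearIndependent L u) {e : ℕ} (he : 1 ≤ e)
    {g : MvPolynomial (Fin 3) L} (hg : g.IsHomogeneous e) (hg0 : g ≠ 0)
    (hnum : 3 * (n + 1) + (e + 2).choose 2 <
      ∑ m, ((d m + 2).choose 2 - (d m + 2 - e).choose 2) + 10) :
    ¬ ∀ m, g ∣ ssub u (D.F m) := by
  intro hdvd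
  have hh : ∀ m, ∃ G ∈ H65.U3 L e (d m), ssub u (D.F m) = g * G := fun m =>
    factor_U3 hg hg0 (ssub_hom u (D.hom m)) (hdvd m)
  choose G hG1 hG2 using hh
  have h1 := nofactor_gen D u hu e g hg he hg0 G hG1 hG2
  have h2 : ∀ m, (if e ≤ d m then (d m - e + 2).choose 2 else 0) = (d m + 2 - e).choose 2 := by
    intro m
    split_ifs with h
    · rw [show d m - e + 2 = d m + 2 - e by omega]
    · rw [Nat.choose_eq_zero_of_lt (by omega)]
  have h3 : ∀ m, (d m + 2 - e).choose 2 ≤ (d m + 2).choose 2 := fun m =>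
    Nat.choose_le_choose 2 (Nat.sub_le _ _)
  have h4 : ∑ m, ((d m + 2).choose 2 - (d m + 2 - e).choose 2) + ∑ m, (d m + 2 - e).choose 2 =
      ∑ m, (d m + 2).choose 2 := by
    rw [← Finset.sum_add_distrib]
    exact Finset.sum_congr rfl fun m _ => Nat.sub_add_cancel (h3 m)
  simp only [h2] at h1
  omega

/-- NOCURVE for `resP` -/
theorem nocurve_resP {u : Fin 3 → Fin (n + 1) → L} (hu : LinearIndependent L u) {e : ℕ}
    (he : 1 ≤ e) {g : MvPolynomial (Fin 3) L} (hg : g.IsHomogeneous e) (hg0 : g ≠ 0)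
    (hnum : 3 * (n + 1) + (e + 2).choose 2 <
      ∑ m, ((d m + 2).choose 2 - (d m + 2 - e).choose 2) + 10) :
    ¬ ∀ m, g ∣ resP u (D.F m) :=
  nocurve D hu he hg hg0 hnum

end

end Pool.Agent.T2C.H2
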