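import Pool.Agent.Lib.MP_c7af3c_ag.T2C.H2.Bc
import Pool.Agent.Lib.MP_c7af3c_ag.T2C.NO3.Iface

/-!
# MP_c7af3c_ag, project T2C, row NO3: base change and assembly
-/

set_option autoImplicit false

namespace Pool.Agent.T2C.H2

open MvPolynomial Pool.Agent.Gen Pool.Agent.Sharp Pool.Agent.Edge Pool.Agent.T2C.NO3
open Pool.Agent.T2 (Fk Rac lnf Sizes Sit)
open Pool.Agent.T2.H2 (rac_of_closed)

/-! ### polynomials over a subfield -/

section sub

variable {Ω : Type} [Field Ω] (K : Subfield Ω) {σ τ : Type*}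

/-- the polynomials with coefficients in `K` -/
noncomputable def cR (σ : Type*) : Subring (MvPolynomial σ Ω) :=
  (MvPolynomial.map (σ := σ) K.subtype).range

theorem mem_cR (f : MvPolynomial σ Ω) : f ∈ cR K σ ↔ ∀ I, coeff I f ∈ K := by
  constructor
  · rintro ⟨g, rfl⟩ I
    rw [coeff_map]
    exact (coeff I g).2
  · intro h
    rw [f.as_sum]
    refine sum_mem fun I _ => ⟨monomial I ⟨coeff I f, h I⟩, ?_⟩
    rw [map_monomial]
    rfl

theorem C_cR (a : Ω) (ha : a ∈ K) : (C a : MvPolynomial σ Ω) ∈ cR K σ :=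
  ⟨C ⟨a, ha⟩, by rw [map_C]; rfl⟩

theorem X_cR (i : σ) : (X i : MvPolynomial σ Ω) ∈ cR K σ := ⟨X i, map_X _ _⟩

theorem aeval_cR (θ : σ → MvPolynomial τ Ω) (hθ : ∀ i, θ i ∈ cR K τ) (F : MvPolynomial σ Ω)
    (hF : ∀ I, coeff I F ∈ K) : aeval θ F ∈ cR K τ := by
  rw [F.as_sum, map_sum]
  refine sum_mem fun I _ => ?_
  rw [aeval_monomial]
  refine mul_mem (C_cR K _ (hF I)) ?_
  rw [Finsupp.prod]
  exact prod_mem fun i _ => pow_mem (hθ i) _

end sub

/-! ### weights -/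

section wt

variable {L : Type} [Field L]

/-- polynomials of weight at most `e` -/
noncomputable def Sw (L : Type) [Field L] (w : (Fin 2 →₀ ℕ) →+ ℕ) (e : ℕ) :
    Submodule L (MvPolynomial (Fin 2) L) := restrictSupport L {I | w I ≤ e}

theorem mem_Sw (w : (Fin 2 →₀ ℕ) →+ ℕ) (e : ℕ) (f : MvPolynomial (Fin 2) L) :
    f ∈ Sw L w e ↔ ∀ I, coeff I f ≠ 0 → w I ≤ e := by
  unfold Sw
  rw [mem_restrictSupport_iff]
  constructor
  · intro h I hI
    exact h (mem_support_iff.2 hI)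
  · intro h I hI
    exact h I (mem_support_iff.1 hI)

theorem Sw_mul (w : (Fin 2 →₀ ℕ) →+ ℕ) {a b : ℕ} {f g : MvPolynomial (Fin 2) L}
    (hf : f ∈ Sw L w a) (hg : g ∈ Sw L w b) : f * g ∈ Sw L w (a + b) := by
  classical
  rw [mem_Sw] at *
  intro I hI
  obtain ⟨J, hJ, J', hJ', rfl⟩ := Finset.mem_add.1 (support_mul f g (mem_support_iff.2 hI))
  rw [map_add]
  exact add_le_add (hf _ (mem_support_iff.1 hJ)) (hg _ (mem_support_iff.1 hJ'))

theorem Sw_one (w : (Fin 2 →₀ ℕ) →+ ℕ) (a : L) : (C a : MvPolynomial (Fin 2) L) ∈ Sw L w 0 := by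
  classical
  rw [mem_Sw]
  intro I hI
  rw [coeff_C] at hI
  split_ifs at hI with h
  · rw [← h, map_zero]
  · exact absurd rfl hI

theorem Sw_pow (w : (Fin 2 →₀ ℕ) →+ ℕ) {a : ℕ} {f : MvPolynomial (Fin 2) L}
    (hf : f ∈ Sw L w a) (k : ℕ) : f ^ k ∈ Sw L w (k * a) := by
  induction k with
  | zero =>
      rw [pow_zero, Nat.zero_mul, ← C_1]
      exact Sw_one w 1
  | succ k ih =>
      rw [pow_succ, Nat.add_mul, Nat.one_mul]
      exact Sw_mul w ih hf

theorem Sw_prod {ι : Type*} (w : (Fin 2 →₀ ℕ) →+ ℕ) (s : Finset ι) (f : ι → MvPolynomial (Fin 2) L)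
    (a : ι → ℕ) (h : ∀ i ∈ s, f i ∈ Sw L w (a i)) :
    ∏ i ∈ s, f i ∈ Sw L w (∑ i ∈ s, a i) := by
  classical
  induction s using Finset.induction_on with
  | empty =>
      rw [Finset.prod_empty, Finset.sum_empty, ← C_1]
      exact Sw_one w 1
  | insert i s hi ih =>
      rw [Finset.prod_insert hi, Finset.sum_insert hi]
      exact Sw_mul w (h i (Finset.mem_insert_self _ _))
        (ih fun j hj => h j (Finset.mem_insert_of_mem hj))

theorem aeval_Sw {σ : Type*} (w : (Fin 2 →₀ ℕ) →+ ℕ) {e D : ℕ}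
    (θ : σ → MvPolynomial (Fin 2) L) (hθ : ∀ i, θ i ∈ Sw L w e) (F : MvPolynomial σ L)
    (hF : F.IsHomogeneous D) : aeval θ F ∈ Sw L w (D * e) := by
  rw [F.as_sum, map_sum]
  refine sum_mem fun I hI => ?_
  rw [aeval_monomial]
  have h1 : D = ∑ i ∈ I.support, I i := by
    have h2 : I.degree = D := by
      rw [Finsupp.degree_eq_weight_one]
      exact hF (mem_support_iff.1 hI)
    rw [← h2]
    rfl
  have h3 := Sw_mul w (Sw_one w (coeff I F)) (Sw_prod w I.support (fun i => θ i ^ I i)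
    (fun i => I i * e) fun i _ => Sw_pow w (hθ i) (I i))
  rw [zero_add, ← Finset.sum_mul, ← h1] at h3
  exact h3

end wt

/-! ### the weights of the two parametrisations -/

section par

variable (L : Type) [Field L]

/-- the exponent of the variable `i` -/
noncomputable def wX (i : Fin 2) : (Fin 2 →₀ ℕ) →+ ℕ := Finsupp.applyAddHom i

/-- the weight of the cone -/
noncomputable def wC : (Fin 2 →₀ ℕ) →+ ℕ := wX 0 + (2 : ℕ) • wX 1

theorem mem_bid (a b : ℕ) (f : MvPolynomial (Fin 2) L) :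
    f ∈ bid L a b ↔ f ∈ Sw L (wX 0) a ∧ f ∈ Sw L (wX 1) b := by
  unfold bid
  rw [mem_Sw, mem_Sw, mem_restrictSupport_iff]
  constructor
  · intro h
    exact ⟨fun I hI => (h (mem_support_iff.2 hI)).1, fun I hI => (h (mem_support_iff.2 hI)).2⟩
  · rintro ⟨h1, h2⟩ I hI
    exact ⟨h1 I (mem_support_iff.1 hI), h2 I (mem_support_iff.1 hI)⟩

theorem mem_wtd (e : ℕ) (f : MvPolynomial (Fin 2) L) : f ∈ wtd L e ↔ f ∈ Sw L wC e := by
  unfold wtd
  rw [mem_Sw, mem_restrictSupport_iff]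
  constructor
  · intro h I hI
    exact h (mem_support_iff.2 hI)
  · intro h I hI
    exact h I (mem_support_iff.1 hI)

variable {L}

theorem Sw_X (w : (Fin 2 →₀ ℕ) →+ ℕ) (i : Fin 2) :
    (X i : MvPolynomial (Fin 2) L) ∈ Sw L w (w (Finsupp.single i 1)) := by
  classical
  rw [mem_Sw]
  intro I hI
  rw [coeff_X] at hI
  split_ifs at hI with h
  · rw [h]
  · exact absurd rfl hI

theorem Sw_mono (w : (Fin 2 →₀ ℕ) →+ ℕ) {a b : ℕ} (h : a ≤ b) {f : MvPolynomial (Fin 2) L}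
    (hf : f ∈ Sw L w a) : f ∈ Sw L w b := by
  rw [mem_Sw] at *
  exact fun I hI => (hf I hI).trans h

theorem psiS_Sw (i : Fin 2) (j : Fin 4) : psiS L j ∈ Sw L (wX i) 1 := by
  have h0 : (1 : MvPolynomial (Fin 2) L) ∈ Sw L (wX i) 0 := by
    rw [← C_1]
    exact Sw_one _ 1
  have hX : ∀ j : Fin 2, (X j : MvPolynomial (Fin 2) L) ∈
      Sw L (wX i) (if j = i then 1 else 0) := by
    intro j
    have h1 := Sw_X (L := L) (wX i) j
    have h2 : wX i (Finsupp.single j 1) = if j = i then 1 else 0 := by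
      change (Finsupp.single j 1) i = _
      rw [Finsupp.single_apply]
    rwa [h2] at h1
  fin_cases j
  · exact Sw_mono _ (Nat.zero_le 1) h0
  · change (X 1 : MvPolynomial (Fin 2) L) ∈ _
    exact Sw_mono _ (by split_ifs <;> omega) (hX 1)
  · change (X 0 : MvPolynomial (Fin 2) L) ∈ _
    exact Sw_mono _ (by split_ifs <;> omega) (hX 0)
  · change (X 0 * X 1 : MvPolynomial (Fin 2) L) ∈ _
    refine Sw_mono _ ?_ (Sw_mul _ (hX 0) (hX 1))
    fin_cases i <;> simp

theorem psiC_Sw (j : Fin 4) : psiC L j ∈ Sw L wC 2 := by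
  have h0 : (1 : MvPolynomial (Fin 2) L) ∈ Sw L wC 0 := by
    rw [← C_1]
    exact Sw_one _ 1
  have hX0 : (X 0 : MvPolynomial (Fin 2) L) ∈ Sw L wC 1 := by
    have h1 := Sw_X (L := L) wC 0
    have h2 : wC (Finsupp.single 0 1) = 1 := by
      change (Finsupp.single 0 1 : Fin 2 →₀ ℕ) 0 + 2 • (Finsupp.single 0 1 : Fin 2 →₀ ℕ) 1 = 1
      simp
    rwa [h2] at h1
  have hX1 : (X 1 : MvPolynomial (Fin 2) L) ∈ Sw L wC 2 := by
    have h1 := Sw_X (L := L) wC 1
    have h2 : wC (Finsupp.single 1 1) = 2 := by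
      change (Finsupp.single 1 1 : Fin 2 →₀ ℕ) 0 + 2 • (Finsupp.single 1 1 : Fin 2 →₀ ℕ) 1 = 2
      simp
    rwa [h2] at h1
  fin_cases j
  · exact Sw_mono _ (Nat.zero_le 2) h0
  · exact Sw_mono _ (by omega) hX0
  · change (X 0 ^ 2 : MvPolynomial (Fin 2) L) ∈ _
    exact Sw_pow _ hX0 2
  · exact hX1

/-- a combination with constant coefficients -/
theorem lin_Sw (w : (Fin 2 →₀ ℕ) →+ ℕ) {e : ℕ} (ψ : Fin 4 → MvPolynomial (Fin 2) L)
    (hψ : ∀ j, ψ j ∈ Sw L w e) (a : Fin 4 → L) : ∑ j, C (a j) * ψ j ∈ Sw L w e := by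
  refine sum_mem fun j _ => ?_
  have h := Sw_mul w (Sw_one w (a j)) (hψ j)
  rwa [zero_add] at h

theorem rho_bid {n D : ℕ} (u : Fin 4 → Fin (n + 1) → L) (F : MvPolynomial (Fin (n + 1)) L)
    (hF : F.IsHomogeneous D) : rho (psiS L) u F ∈ bid L D D := by
  rw [mem_bid]
  constructor
  · have h := aeval_Sw (wX 0) _ (fun p => lin_Sw (wX 0) (psiS L) (psiS_Sw 0) fun j => u j p) F hF
    rwa [mul_one] at h
  · have h := aeval_Sw (wX 1) _ (fun p => lin_Sw (wX 1) (psiS L) (psiS_Sw 1) fun j => u j p) F hF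
    rwa [mul_one] at h

theorem rho_wtd {n D : ℕ} (u : Fin 4 → Fin (n + 1) → L) (F : MvPolynomial (Fin (n + 1)) L)
    (hF : F.IsHomogeneous D) : rho (psiC L) u F ∈ wtd L (2 * D) := by
  rw [mem_wtd]
  have h := aeval_Sw wC _ (fun p => lin_Sw wC (psiC L) psiC_Sw fun j => u j p) F hF
  rwa [mul_comm] at h

end par

section par2

variable {Ω : Type} [Field Ω] (K : Subfield Ω)

theorem psiS_cR (j : Fin 4) : psiS Ω j ∈ cR K (Fin 2) := by
  fin_cases j
  · exact one_mem (cR K (Fin 2))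
  · exact X_cR K 1
  · exact X_cR K 0
  · exact mul_mem (X_cR K 0) (X_cR K 1)

theorem psiC_cR (j : Fin 4) : psiC Ω j ∈ cR K (Fin 2) := by
  fin_cases j
  · exact one_mem (cR K (Fin 2))
  · exact X_cR K 0
  · exact pow_mem (X_cR K 0) 2
  · exact X_cR K 1

theorem rho_cR {n : ℕ} (ψ : Fin 4 → MvPolynomial (Fin 2) Ω) (hψ : ∀ j, ψ j ∈ cR K (Fin 2))
    (u : Fin 4 → Fin (n + 1) → Ω) (hu : ∀ j p, u j p ∈ K) (F : MvPolynomial (Fin (n + 1)) Ω)
    (hF : ∀ I, coeff I F ∈ K) (I : Fin 2 →₀ ℕ) : coeff I (rho ψ u F) ∈ K := by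
  refine (mem_cR K _).1 (aeval_cR K _ (fun p => ?_) F hF) I
  exact sum_mem fun j _ => mul_mem (C_cR K _ (hu j p)) (hψ j)

end par2

/-! ### numbers -/

section num

variable {c : ℕ} (d : Fin c → ℕ)

theorem sum23 (h23 : ∀ m, d m = 2 ∨ d m = 3) (v : ℕ → ℕ) :
    ∑ m, v (d m) = v 2 * ∑ m, (3 - d m) + v 3 * ∑ m, (d m - 2) := by
  rw [Finset.mul_sum, Finset.mul_sum, ← Finset.sum_add_distrib]
  refine Finset.sum_congr rfl fun m _ => ?_
  rcases h23 m with h | h <;> rw [h] <;> simp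

theorem cnt (h23 : ∀ m, d m = 2 ∨ d m = 3) (m0 : Fin c) (h0 : d m0 = 2) (v : ℕ → ℕ) :
    (∑ m, if m ≠ m0 then v (d m) else 0) + v 2 =
      v 2 * ∑ m, (3 - d m) + v 3 * ∑ m, (d m - 2) := by
  classical
  rw [← sum23 d h23 v]
  have h1 : v 2 = ∑ m, if m = m0 then v (d m) else 0 := by
    rw [Finset.sum_ite_eq' Finset.univ m0 fun m => v (d m), if_pos (Finset.mem_univ _), h0]
  conv_lhs => rw [h1]
  rw [← Finset.sum_add_distrib]
  refine Finset.sum_congr rfl fun m _ => ?_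
  by_cases h : m = m0 <;> simp [h]

theorem num (h23 : ∀ m, d m = 2 ∨ d m = 3) (m0 : Fin c) (h0 : d m0 = 2)
    (hd : ∑ m, d m = c + 5) : 3 ≤ c ∧ c ≤ 5 ∧ ∑ m, (3 - d m) = 2 * c - 5 ∧
      ∑ m, (d m - 2) = 5 - c := by
  have h1 : ∑ m, (3 - d m) + ∑ m, d m = 3 * c := by
    rw [← Finset.sum_add_distrib]
    have h2 : ∀ m ∈ (Finset.univ : Finset (Fin c)), 3 - d m + d m = 3 := by
      intro m _
      rcases h23 m with h | h <;> omega
    rw [Finset.sum_congr rfl h2]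
    simp [mul_comm]
  have h2 : ∑ m, (d m - 2) + 2 * c = ∑ m, d m := by
    have h3 : 2 * c = ∑ _m : Fin c, 2 := by simp [mul_comm]
    rw [h3, ← Finset.sum_add_distrib]
    refine Finset.sum_congr rfl fun m _ => ?_
    rcases h23 m with h | h <;> omega
  have h3 : 1 ≤ ∑ m, (3 - d m) := by
    have h4 := Finset.single_le_sum (f := fun m => 3 - d m) (fun m _ => Nat.zero_le _)
      (Finset.mem_univ m0)
    simp only [h0] at h4
    exact h4
  omega

theorem arS (h23 : ∀ m, d m = 2 ∨ d m = 3) (m0 : Fin c) (h0 : d m0 = 2)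
    (hd : ∑ m, d m = c + 5) (a b : ℕ) (ha : 1 ≤ a) (hb : 1 ≤ b) (hab : 3 ≤ a + b) (ha3 : a ≤ 3)
    (hb3 : b ≤ 3) (h : ∑ m, (d m + 1) ^ 2 + 8 ≤ 4 * (c + 3 + 1) + (a + 1) * (b + 1) +
      ∑ m, if m ≠ m0 ∧ a ≤ d m ∧ b ≤ d m then (d m - a + 1) * (d m - b + 1) else 0) : False := by
  obtain ⟨hc3, hc5, e2, e3⟩ := num d h23 m0 h0 hd
  have h1 : (∑ m, if m ≠ m0 ∧ a ≤ d m ∧ b ≤ d m then (d m - a + 1) * (d m - b + 1) else 0) =
      ∑ m, if m ≠ m0 then (if a ≤ d m ∧ b ≤ d m then (d m - a + 1) * (d m - b + 1) else 0)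
        else 0 := Finset.sum_congr rfl fun m _ => by
    by_cases hm : m = m0 <;> simp [hm]
  have h2 := cnt d h23 m0 h0 fun x => if a ≤ x ∧ b ≤ x then (x - a + 1) * (x - b + 1) else 0
  have h3 := sum23 d h23 fun x => (x + 1) ^ 2
  rw [h1] at h
  rw [e2, e3] at h2 h3
  rw [h3] at h
  generalize (∑ m, if m ≠ m0 then (if a ≤ d m ∧ b ≤ d m then (d m - a + 1) * (d m - b + 1) else 0)
        else 0) = s at h h2
  interval_cases c <;> interval_cases a <;> interval_cases b <;> simp at h h2 hab <;> omega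

theorem arC (h23 : ∀ m, d m = 2 ∨ d m = 3) (m0 : Fin c) (h0 : d m0 = 2)
    (hd : ∑ m, d m = c + 5) (e : ℕ) (he : 3 ≤ e) (he6 : e ≤ 6)
    (h : ∑ m, NW (2 * d m) + 9 ≤ 4 * (c + 3 + 1) + NW e +
      ∑ m, if m ≠ m0 ∧ e ≤ 2 * d m then NW (2 * d m - e) else 0) : False := by
  obtain ⟨hc3, hc5, e2, e3⟩ := num d h23 m0 h0 hd
  have h1 : (∑ m, if m ≠ m0 ∧ e ≤ 2 * d m then NW (2 * d m - e) else 0) =
      ∑ m, if m ≠ m0 then (if e ≤ 2 * d m then NW (2 * d m - e) else 0)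
        else 0 := Finset.sum_congr rfl fun m _ => by
    by_cases hm : m = m0 <;> simp [hm]
  have h2 := cnt d h23 m0 h0 fun x => if e ≤ 2 * x then NW (2 * x - e) else 0
  have h3 := sum23 d h23 fun x => NW (2 * x)
  rw [h1] at h
  rw [e2, e3] at h2 h3
  rw [h3] at h
  have n0 : NW 0 = 1 := by decide
  have n1 : NW 1 = 2 := by decide
  have n2 : NW 2 = 4 := by decide
  have n3 : NW 3 = 6 := by decide
  have n4 : NW 4 = 9 := by decide
  have n5 : NW 5 = 12 := by decide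
  have n6 : NW 6 = 16 := by decide
  generalize (∑ m, if m ≠ m0 then (if e ≤ 2 * d m then NW (2 * d m - e) else 0)
        else 0) = s at h h2
  interval_cases c <;> interval_cases e <;> simp [n0, n1, n2, n3, n4, n5, n6] at h h2 <;> omega

end num

/-! ### assembly -/

section asm

theorem solve_K {Ω : Type} [Field Ω] (K : Subfield Ω) {N : ℕ} (g : Fin N → Fin N → Ω)
    (hg : ∀ i j, g i j ∈ K) (hli : LinearIndependent Ω g) (a : Fin N → Ω) (ha : ∀ j, a j ∈ K) :
    ∃ b : Fin N → Ω, (∀ i, b i ∈ K) ∧ ∀ j, ∑ i, g j i * b i = a j := by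
  classical
  let gK : Matrix (Fin N) (Fin N) K := Matrix.of fun i j => ⟨g i j, hg i j⟩
  have h1 : gK.map K.subtype = Matrix.of g := by
    ext i j
    rfl
  have h2 : IsUnit (Matrix.of g) :=
    Matrix.linearIndependent_rows_iff_isUnit.1 hli
  have h3 : IsUnit gK := by
    rw [Matrix.isUnit_iff_isUnit_det, isUnit_iff_ne_zero]
    intro h0
    rw [Matrix.isUnit_iff_isUnit_det, ← h1, ← RingHom.mapMatrix_apply, ← RingHom.map_det, h0,
      map_zero] at h2
    exact not_isUnit_zero h2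
  let aK : Fin N → K := fun j => ⟨a j, ha j⟩
  refine ⟨fun i => (gK⁻¹.mulVec aK i : K), fun i => SetLike.coe_mem _, fun j => ?_⟩
  have h4 : gK.mulVec (gK⁻¹.mulVec aK) = aK := by
    rw [Matrix.mulVec_mulVec, Matrix.mul_nonsing_inv _ ((Matrix.isUnit_iff_isUnit_det _).1 h3),
      Matrix.one_mulVec]
  have h5 := congrArg K.subtype (congrFun h4 j)
  rw [Matrix.mulVec, dotProduct, map_sum] at h5
  change _ = a j at h5
  rw [← h5]
  rfl

variable {L : Type} [Field L]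

theorem eval_ae {σ τ : Type*} (z : τ → L) (θ : σ → MvPolynomial τ L) (F : MvPolynomial σ L) :
    eval z (aeval θ F) = eval (fun p => eval z (θ p)) F := by
  induction F using MvPolynomial.induction_on with
  | C a => simp
  | add p q hp hq => simp only [map_add, hp, hq]
  | mul_X p i hp => simp only [map_mul, hp, aeval_X, eval_X]

theorem ae_ae {σ τ υ : Type*} (ψ : τ → MvPolynomial υ L) (θ : σ → MvPolynomial τ L)
    (F : MvPolynomial σ L) : aeval ψ (aeval θ F) = aeval (fun p => aeval ψ (θ p)) F := by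
  induction F using MvPolynomial.induction_on with
  | C a => simp
  | add p q hp hq => simp only [map_add, hp, hq]
  | mul_X p i hp => simp only [map_mul, hp, aeval_X]

/-- the space spanned by the `P i` and a basis of it -/
def uu {n : ℕ} (P : Fin 4 → Fin (n + 1) → L) (g : Fin 4 → Fin 4 → L) :
    Fin 4 → Fin (n + 1) → L := fun j p => ∑ i, g j i * P i p

theorem rho_uu {n : ℕ} (P : Fin 4 → Fin (n + 1) → L) (g : Fin 4 → Fin 4 → L)
    (ψ : Fin 4 → MvPolynomial (Fin 2) L) (F : MvPolynomial (Fin (n + 1)) L) :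
    rho ψ (uu P g) F = aeval (fun p => ∑ j, C (g j p) * ψ j) (sub4 P F) := by
  unfold rho sub4 uu
  rw [ae_ae]
  congr 2
  funext p
  rw [map_sum]
  have h : ∀ i, aeval (fun p => ∑ j, C (g j p) * ψ j) (C (P i p) * X i : MvPolynomial (Fin 4) L) =
      ∑ j, C (g j i * P i p) * ψ j := by
    intro i
    rw [map_mul, aeval_X, Finset.mul_sum]
    refine Finset.sum_congr rfl fun j _ => ?_
    rw [algHom_C, algebraMap_eq, map_mul]
    ring
  rw [Finset.sum_congr rfl fun i _ => h i, Finset.sum_comm]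
  refine Finset.sum_congr rfl fun j _ => ?_
  rw [map_sum, Finset.sum_mul]

end asm

section core

variable {Ω : Type} [Field Ω] [CharZero Ω] {K : Subfield Ω} {n c : ℕ} {d : Fin c → ℕ}
  {D : DSys Ω n c d} {x : Fin (n + 1) → Ω} {j0 : Fin (n + 1)} {t : Fin (3 + 1) → Fin (n + 1)}
  {P : Fin (3 + 1) → Fin (n + 1) → Ω}

omit [CharZero Ω] in
theorem smul_form {m e : ℕ} {F : MvPolynomial (Fin (m + 1)) Ω} (hF : F.IsHomogeneous e)
    (a : Ω) (z : Fin (m + 1) → Ω) : eval (fun p => a * z p) F = a ^ e * eval z F := by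
  classical
  rw [F.as_sum, map_sum, map_sum, Finset.mul_sum]
  refine Finset.sum_congr rfl fun I hI => ?_
  rw [eval_monomial, eval_monomial, Finsupp.prod, Finsupp.prod]
  have h1 : I.degree = e := by
    rw [Finsupp.degree_eq_weight_one]
    exact hF (mem_support_iff.1 hI)
  have h2 : ∀ p ∈ I.support, (a * z p) ^ I p = a ^ I p * z p ^ I p := fun p _ => mul_pow _ _ _
  rw [Finset.prod_congr rfl h2, Finset.prod_mul_distrib, Finset.prod_pow_eq_pow_sum]
  have h3 : ∑ p ∈ I.support, I p = e := h1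
  rw [h3]
  ring

omit [CharZero Ω] in
theorem uu_eq {g : Fin 4 → Fin 4 → Ω} {lam τ ζ : Ω} {ψ : Fin 4 → MvPolynomial (Fin 2) Ω}
    (hull : Hull K x j0 t P)
    (hy : ∀ i, x (t i) = lam * ∑ j, g j i * eval ![τ, ζ] (ψ j)) (p : Fin (n + 1)) :
    x p = lam * ∑ j, uu P g j p * eval ![τ, ζ] (ψ j) := by
  rw [hull.xP p]
  unfold uu
  simp only [Finset.sum_mul, Finset.mul_sum]
  rw [Finset.sum_comm]
  refine Finset.sum_congr rfl fun i _ => ?_
  rw [hy i]
  simp only [Finset.mul_sum]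
  refine Finset.sum_congr rfl fun j _ => ?_
  ring

theorem com2 {g : Fin 4 → Fin 4 → Ω} {lam τ ζ : Ω} {ψ : Fin 4 → MvPolynomial (Fin 2) Ω}
    (hull : Hull K x j0 t P) (h0 : ∀ m, eval x (D.F m) = 0) (hlam : lam ≠ 0)
    (hy : ∀ i, x (t i) = lam * ∑ j, g j i * eval ![τ, ζ] (ψ j)) (m : Fin c) :
    eval ![τ, ζ] (rho ψ (uu P g) (D.F m)) = 0 := by
  unfold rho
  rw [eval_ae]
  have h1 := smul_form (D.hom m) lam
    (fun p => eval ![τ, ζ] (∑ j, C (uu P g j p) * ψ j))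
  have h2 : (fun p => lam * eval ![τ, ζ] (∑ j, C (uu P g j p) * ψ j)) = x := by
    funext p
    rw [uu_eq hull hy p, map_sum]
    simp only [map_mul, eval_C]
  rw [h2, h0] at h1
  exact (mul_eq_zero.1 h1.symm).resolve_left (pow_ne_zero _ hlam)

omit [CharZero Ω] in
theorem com3 {g : Fin 4 → Fin 4 → Ω} {lam τ ζ : Ω} {ψ : Fin 4 → MvPolynomial (Fin 2) Ω}
    (hull : Hull K x j0 t P) (hg : ∀ i j, g i j ∈ K) (hgli : LinearIndependent Ω g)
    (hy : ∀ i, x (t i) = lam * ∑ j, g j i * eval ![τ, ζ] (ψ j))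
    (a : Fin 4 → Ω) (ha : ∀ i, a i ∈ K) (h : ∑ j, a j * eval ![τ, ζ] (ψ j) = 0) : a = 0 := by
  obtain ⟨b, hb, hba⟩ := solve_K K g hg hgli a ha
  have h1 : ∑ i, b i * x (t i) = 0 := by
    have h2 : ∑ i, b i * x (t i) = lam * ∑ j, a j * eval ![τ, ζ] (ψ j) := by
      simp only [hy, ← hba, Finset.sum_mul, Finset.mul_sum]
      rw [Finset.sum_comm]
      refine Finset.sum_congr rfl fun j _ => Finset.sum_congr rfl fun i _ => ?_
      ring
    rw [h2, h, mul_zero]
  have h3 := hull.yk b hb h1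
  funext j
  rw [← hba j, h3]
  simp

omit [CharZero Ω] in
theorem evS (τ ζ : Ω) : eval ![τ, ζ] (psiS Ω 0) = 1 ∧ eval ![τ, ζ] (psiS Ω 1) = ζ ∧
    eval ![τ, ζ] (psiS Ω 2) = τ ∧ eval ![τ, ζ] (psiS Ω 3) = τ * ζ := by
  unfold psiS
  refine ⟨?_, ?_, ?_, ?_⟩
  · change eval ![τ, ζ] (1 : MvPolynomial (Fin 2) Ω) = 1
    exact map_one _
  · change eval ![τ, ζ] (X 1 : MvPolynomial (Fin 2) Ω) = ζ
    rw [eval_X]
    rfl
  · change eval ![τ, ζ] (X 0 : MvPolynomial (Fin 2) Ω) = τ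
    rw [eval_X]
    rfl
  · change eval ![τ, ζ] (X 0 * X 1 : MvPolynomial (Fin 2) Ω) = τ * ζ
    rw [map_mul, eval_X, eval_X]
    rfl

omit [CharZero Ω] in
theorem evC (τ ζ : Ω) : eval ![τ, ζ] (psiC Ω 0) = 1 ∧ eval ![τ, ζ] (psiC Ω 1) = τ ∧
    eval ![τ, ζ] (psiC Ω 2) = τ ^ 2 ∧ eval ![τ, ζ] (psiC Ω 3) = ζ := by
  unfold psiC
  refine ⟨?_, ?_, ?_, ?_⟩
  · change eval ![τ, ζ] (1 : MvPolynomial (Fin 2) Ω) = 1
    exact map_one _
  · change eval ![τ, ζ] (X 0 : MvPolynomial (Fin 2) Ω) = τ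
    rw [eval_X]
    rfl
  · change eval ![τ, ζ] (X 0 ^ 2 : MvPolynomial (Fin 2) Ω) = τ ^ 2
    rw [map_pow, eval_X]
    rfl
  · change eval ![τ, ζ] (X 1 : MvPolynomial (Fin 2) Ω) = ζ
    rw [eval_X]
    rfl

/-- The core: no `P^3` over an algebraically closed field. -/
theorem core (hS : N3SStatement) (hC : N3CStatement) (hUS : N3USStatement)
    (hUC : N3UCStatement) (hQ : N3QStatement) (hZ : N3ZStatement) (hKc : IsAlgClosed K)
    (hn : n = c + 3) (hd : ∑ m, d m = n + 2) (h2 : ∀ m, 2 ≤ d m) (h3 : ∀ m, d m ≤ 3)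
    (h0 : ∀ m, eval x (D.F m) = 0) (kF : ∀ m I, coeff I (D.F m) ∈ K)
    (hull : Hull K x j0 t P) : False := by
  classical
  have h23 : ∀ m, d m = 2 ∨ d m = 3 := fun m => by
    have := h2 m
    have := h3 m
    omega
  have hPli : LinearIndependent Ω P := by
    rw [Fintype.linearIndependent_iff]
    intro a ha i
    have h1 := congrFun ha (t i)
    rw [Finset.sum_apply] at h1
    simp only [Pi.smul_apply, smul_eq_mul, hull.Pt, mul_ite, mul_one, mul_zero,
      Finset.sum_ite_eq', Finset.mem_univ, if_true, Pi.zero_apply] at h1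
    exact h1
  obtain ⟨m0, hd0, hne⟩ := hZ Ω n c d D hn hd h2 h3 P hPli
  have hd' : ∑ m, d m = c + 5 := by omega
  have hf : Fk K 2 (sub4 P (D.F m0)) := by
    constructor
    · have h1 := (D.hom m0).aeval (fun p => ∑ j, C (P j p) * X j) (n := 1) fun p => by
        refine IsHomogeneous.sum _ _ _ fun j _ => ?_
        have h2 := (isHomogeneous_C (Fin 4) (P j p)).mul (isHomogeneous_X Ω j)
        rwa [zero_add] at h2
      rw [one_mul, hd0] at h1
      exact h1
    · exact (mem_cR K _).1 (aeval_cR K _ (fun p => sum_mem fun j _ =>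
        mul_mem (C_cR K _ (hull.Pk j p)) (X_cR K j)) _ (kF m0))
  have hfy : eval (fun i => x (t i)) (sub4 P (D.F m0)) = 0 := by
    unfold sub4
    rw [eval_ae]
    have h1 : (fun p => eval (fun i => x (t i)) (∑ j, C (P j p) * X j)) = x := by
      funext p
      rw [map_sum, hull.xP p]
      simp only [map_mul, eval_C, eval_X]
    rw [h1, h0]
  obtain ⟨g, lam, τ, ζ, hg, hgli, hlam, hcase⟩ :=
    hQ Ω K hKc (fun i => x (t i)) hull.yk _ hf hne hfy
  have huK : ∀ j p, uu P g j p ∈ K := fun j p =>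
    sum_mem fun i _ => mul_mem (hg j i) (hull.Pk i p)
  have huli : LinearIndependent Ω (uu P g) := by
    rw [Fintype.linearIndependent_iff] at hgli ⊢
    intro a ha j
    refine hgli a ?_ j
    funext i
    have h1 := congrFun ha (t i)
    rw [Finset.sum_apply, Pi.zero_apply] at h1
    rw [Finset.sum_apply, Pi.zero_apply, ← h1]
    refine Finset.sum_congr rfl fun l _ => ?_
    rw [Pi.smul_apply, Pi.smul_apply]
    congr 1
    unfold uu
    simp [hull.Pt]
  have hrac := rac_of_closed K hKc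
  rcases hcase with ⟨hz, hy⟩ | ⟨hz, hy⟩
  · -- rank 4
    have hy' : ∀ i, x (t i) = lam * ∑ j, g j i * eval ![τ, ζ] (psiS Ω j) := by
      intro i
      obtain ⟨e0, e1, e2, e3⟩ := evS τ ζ
      rw [Fin.sum_univ_four, e0, e1, e2, e3]
      have h := hy i
      rw [show x (t i) = _ from h]
      ring
    have hz' : rho (psiS Ω) (uu P g) (D.F m0) = 0 := by
      rw [rho_uu]
      exact hz
    have ht : ∀ a : Fin 4 → Ω, (∀ i, a i ∈ K) →
        a 0 + a 1 * ζ + a 2 * τ + a 3 * (τ * ζ) = 0 → a = 0 := by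
      intro a ha h
      refine com3 hull hg hgli hy' a ha ?_
      obtain ⟨e0, e1, e2, e3⟩ := evS τ ζ
      rw [← h, Fin.sum_univ_four, e0, e1, e2, e3, mul_one]
    by_cases hf0 : ∃ m, rho (psiS Ω) (uu P g) (D.F m) ≠ 0
    · obtain ⟨a, b, h, g', ha, hb, hab, hh, hhne, hfg, hgb, hg0⟩ := hUS Ω K hrac τ ζ ht c d
        (fun m => rho (psiS Ω) (uu P g) (D.F m)) (fun m => rho_bid _ _ (D.hom m))
        (fun m => rho_cR K _ (psiS_cR K) _ huK _ (kF m)) (fun m => com2 hull h0 hlam hy' m) hf0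
      obtain ⟨m, hm⟩ := hf0
      have hgm : g' m ≠ 0 := by
        intro h1
        have h2 := hfg m
        rw [h1, mul_zero] at h2
        exact hm h2
      have hle : a ≤ d m ∧ b ≤ d m := by
        by_contra h1
        exact hgm (hg0 m h1)
      have hg00 : g' m0 = 0 := by
        have h1 := hfg m0
        rw [hz'] at h1
        exact (mul_eq_zero.1 h1.symm).resolve_left hhne
      have hfin := hS Ω n c d D (uu P g) huli m0 a b h g' hz' hg00 hh hhne (fun m _ => hfg m)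
        hgb hg0
      rw [hn] at hfin
      exact arS d h23 m0 hd0 hd' a b ha hb hab (hle.1.trans (h3 m)) (hle.2.trans (h3 m)) hfin
    · push Not at hf0
      have h1 : (1 : MvPolynomial (Fin 2) Ω) ∈ bid Ω 3 3 := by
        rw [mem_bid, ← C_1]
        exact ⟨Sw_mono _ (Nat.zero_le 3) (Sw_one _ 1), Sw_mono _ (Nat.zero_le 3) (Sw_one _ 1)⟩
      have hfin := hS Ω n c d D (uu P g) huli m0 3 3 1 0 hz' rfl h1 one_ne_zero
        (fun m _ => by rw [hf0 m, Pi.zero_apply, mul_zero]) (fun m => zero_mem _)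
        (fun m _ => rfl)
      rw [hn] at hfin
      exact arS d h23 m0 hd0 hd' 3 3 (by omega) (by omega) (by omega) le_rfl le_rfl hfin
  · -- rank 3
    have hy' : ∀ i, x (t i) = lam * ∑ j, g j i * eval ![τ, ζ] (psiC Ω j) := by
      intro i
      obtain ⟨e0, e1, e2, e3⟩ := evC τ ζ
      rw [Fin.sum_univ_four, e0, e1, e2, e3]
      have h := hy i
      rw [show x (t i) = _ from h]
      ring
    have hz' : rho (psiC Ω) (uu P g) (D.F m0) = 0 := by
      rw [rho_uu]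
      exact hz
    have ht : ∀ a : Fin 4 → Ω, (∀ i, a i ∈ K) →
        a 0 + a 1 * τ + a 2 * τ ^ 2 + a 3 * ζ = 0 → a = 0 := by
      intro a ha h
      refine com3 hull hg hgli hy' a ha ?_
      obtain ⟨e0, e1, e2, e3⟩ := evC τ ζ
      rw [← h, Fin.sum_univ_four, e0, e1, e2, e3, mul_one]
    by_cases hf0 : ∃ m, rho (psiC Ω) (uu P g) (D.F m) ≠ 0
    · obtain ⟨e, h, g', he, hh, hhne, hfg, hgb, hg0⟩ := hUC Ω K hrac τ ζ ht c d
        (fun m => rho (psiC Ω) (uu P g) (D.F m)) (fun m => rho_wtd _ _ (D.hom m))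
        (fun m => rho_cR K _ (psiC_cR K) _ huK _ (kF m)) (fun m => com2 hull h0 hlam hy' m) hf0
      obtain ⟨m, hm⟩ := hf0
      have hgm : g' m ≠ 0 := by
        intro h1
        have h2 := hfg m
        rw [h1, mul_zero] at h2
        exact hm h2
      have hle : e ≤ 2 * d m := by
        by_contra h1
        exact hgm (hg0 m h1)
      have hg00 : g' m0 = 0 := by
        have h1 := hfg m0
        rw [hz'] at h1
        exact (mul_eq_zero.1 h1.symm).resolve_left hhne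
      have hfin := hC Ω n c d D (uu P g) huli m0 e h g' hz' hg00 hh hhne (fun m _ => hfg m)
        hgb hg0
      rw [hn] at hfin
      have h3m := h3 m
      exact arC d h23 m0 hd0 hd' e he (by omega) hfin
    · push Not at hf0
      have h1 : (1 : MvPolynomial (Fin 2) Ω) ∈ wtd Ω 6 := by
        rw [mem_wtd, ← C_1]
        exact Sw_mono _ (Nat.zero_le 6) (Sw_one _ 1)
      have hfin := hC Ω n c d D (uu P g) huli m0 6 1 0 hz' rfl h1 one_ne_zero
        (fun m _ => by rw [hf0 m, Pi.zero_apply, mul_zero]) (fun m => zero_mem _)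
        (fun m _ => rfl)
      rw [hn] at hfin
      exact arC d h23 m0 hd0 hd' 6 (by omega) le_rfl hfin

end core

/-- Row N3ASM. -/
theorem n3asm : N3AsmStatement := by
  intro hLd hDex hNopl hS hC hUS hUC hQ hZ Ω _ _ k Γ _ S n c d D x j0 hn hd h2 h3 hsit m t P hull
  have hsum : ∑ m, d m ≤ ∑ _m : Fin c, 3 := Finset.sum_le_sum fun m _ => h3 m
  rw [Finset.sum_const, Finset.card_univ, Fintype.card_fin, smul_eq_mul, hd, hn] at hsum
  have hm3 : 3 ≤ m := hNopl Ω k Γ S n c d D x j0 hn hd h2 (by omega)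
    (fun m => (h3 m).trans (by omega)) hsit m t P hull
  by_contra hlt
  obtain rfl : m = 3 := by omega
  obtain ⟨Ω', _, _, _, K, D', x', P', hKc, -, h0, kF, hull'⟩ := bc hLd hDex Ω k n c d D x j0
    hsit.hj0 hsit.h0 hsit.kF hsit.kalg 3 t P hull
  exact core hS hC hUS hUC hQ hZ hKc hn hd h2 h3 h0 kF hull'

end Pool.Agent.T2C.H2
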