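import Pool.Agent.Lib.MP_c7af3c_ag.T2C.H2.Exta
import Pool.Agent.Lib.MP_c7af3c_ag.EDGE.C2.H59.Ld
import Pool.Agent.Lib.MP_c7af3c_ag.T2.H26.Final

/-!
# MP_c7af3c_ag, project T2C: base change of a point and its hull to algebraically closed fields
-/

set_option autoImplicit false

namespace Pool.Agent.T2C.H2

open MvPolynomial Pool.Agent.Gen Pool.Agent.Sharp Pool.Agent.Edge
open Pool.Agent.T2 (Fk Rac lnf Sizes Sit)
open Pool.Agent.T2.H2 (li_map dec rac_of_closed ind_K)

/-- A point on a system over `k` and its hull, over algebraically closed fields. -/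
theorem bc (hLd : C2.LdStatement) (hDex : C2.DexStatement) (Ω : Type) [Field Ω] [CharZero Ω]
    (k : Subfield Ω) (n c : ℕ) (d : Fin c → ℕ) (D : DSys Ω n c d) (x : Fin (n + 1) → Ω)
    (j0 : Fin (n + 1)) (hj0 : x j0 = 1) (h0 : ∀ m, eval x (D.F m) = 0)
    (kF : ∀ m I, coeff I (D.F m) ∈ k) (kalg : Rac k) (m : ℕ)
    (t : Fin (m + 1) → Fin (n + 1)) (P : Fin (m + 1) → Fin (n + 1) → Ω)
    (hull : Hull k x j0 t P) :
    ∃ (Ω' : Type) (_ : Field Ω') (_ : CharZero Ω') (_ : IsAlgClosed Ω') (K : Subfield Ω')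
      (D' : DSys Ω' n c d) (x' : Fin (n + 1) → Ω') (P' : Fin (m + 1) → Fin (n + 1) → Ω'),
      IsAlgClosed K ∧ x' j0 = 1 ∧ (∀ m, eval x' (D'.F m) = 0) ∧
      (∀ m I, coeff I (D'.F m) ∈ K) ∧ Hull K x' j0 t P' := by
  obtain ⟨K, hKc, hkK, hld⟩ := hLd Ω k kalg
  obtain ⟨D', hF, hd⟩ := hDex Ω n c d D
  let φ : Ω →+* AlgebraicClosure Ω := algebraMap Ω (AlgebraicClosure Ω)
  have hkK' : ∀ z ∈ k, φ z ∈ K := hkK
  have hF' : ∀ m, D'.F m = MvPolynomial.map φ (D.F m) := hF
  refine ⟨AlgebraicClosure Ω, inferInstance, inferInstance, inferInstance, K, D', imv φ x,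
    fun i => imv φ (P i), hKc, by rw [imv_apply, hj0, map_one], fun m => by
      rw [hF', eval_imv, h0, map_zero], fun m I => by
      rw [hF', coeff_map]
      exact hkK' _ (kF m I), ?_⟩
  exact
    { t0 := hull.t0
      Pt := fun i j => by
        rw [imv_apply, hull.Pt]
        split_ifs
        · exact map_one φ
        · exact map_zero φ
      xP := fun f => by
        rw [imv_apply, hull.xP f, map_sum]
        exact Finset.sum_congr rfl fun i _ => map_mul φ _ _
      Pk := fun i f => hkK' _ (hull.Pk i f)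
      yk := fun a ha h0 => hld (m + 1) (fun i => x (t i)) hull.yk a ha h0 }

end Pool.Agent.T2C.H2
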