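import Pool.Agent.Lib.MP_c7af3c_ag.T2.H2.Exta

/-!
# MP_c7af3c_ag, project T2C: transfer of tuples along a homomorphism of fields (tools for EXTA)
-/

set_option autoImplicit false

namespace Pool.Agent.T2C.H2

open MvPolynomial Pool.Agent.Gen Pool.Agent.Sharp Pool.Agent.Edge

section tr

variable {Ω E : Type} [Field Ω] [Field E] (φ : Ω →+* E) {n c : ℕ} {d : Fin c → ℕ}
  (D : DSys Ω n c d) (D' : DSys E n c d) (x : Fin (n + 1) → Ω) (j0 : Fin (n + 1))

/-- a vector with the images of the coordinates -/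
def imv (u : Fin (n + 1) → Ω) : Fin (n + 1) → E := fun p => φ (u p)

theorem imv_apply (u : Fin (n + 1) → Ω) (p : Fin (n + 1)) : imv φ u p = φ (u p) := rfl

theorem imv_zero : imv φ (0 : Fin (n + 1) → Ω) = 0 := by
  funext p
  simp [imv]

theorem imv_add (a b : Fin (n + 1) → Ω) : imv φ (a + b) = imv φ a + imv φ b := by
  funext p
  simp [imv]

theorem imv_sub (a b : Fin (n + 1) → Ω) : imv φ (a - b) = imv φ a - imv φ b := by
  funext p
  simp [imv]

theorem imv_smul (z : Ω) (a : Fin (n + 1) → Ω) : imv φ (z • a) = φ z • imv φ a := by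
  funext p
  simp [imv]

theorem imv_sum {ι : Type*} (s : Finset ι) (f : ι → Fin (n + 1) → Ω) :
    imv φ (∑ i ∈ s, f i) = ∑ i ∈ s, imv φ (f i) := by
  funext p
  rw [imv_apply, Finset.sum_apply, map_sum, Finset.sum_apply]
  rfl

theorem eval_imv (G : MvPolynomial (Fin (n + 1)) Ω) :
    eval (imv φ x) (MvPolynomial.map φ G) = φ (eval x G) := by
  rw [eval_map, ← eval₂_id, MvPolynomial.hom_eval₂]
  rfl

theorem V_imv (hd : ∀ m I z, D'.del m I (φ z) = φ (D.del m I z)) (m : Fin c)
    (G : MvPolynomial (Fin (n + 1)) Ω) :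
    D'.V (imv φ x) m (MvPolynomial.map φ G) = imv φ (D.V x m G) := by
  induction G using MvPolynomial.induction_on' with
  | monomial I a =>
      rw [map_monomial]
      funext p
      rw [DSys.V_monomial, imv_apply, imv_apply, DSys.V_monomial, hd, map_mul]
  | add p q hp hq =>
      rw [map_add, map_add, map_add, hp, hq, imv_add]

theorem VT_imv (hd : ∀ m I z, D'.del m I (φ z) = φ (D.del m I z)) (G : TP Ω n c) :
    VT D' (imv φ x) (fun m => MvPolynomial.map φ (G m)) = imv φ (VT D x G) := by
  rw [VT_apply, VT_apply, imv_sum]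
  exact Finset.sum_congr rfl fun m _ => V_imv φ D D' x hd m (G m)

theorem lf_imv (i : Fin (n + 1)) : lf (imv φ x) j0 i = MvPolynomial.map φ (lf x j0 i) := by
  unfold lf
  simp [imv]

theorem mulT_imv (A : TP Ω n c) (l : MvPolynomial (Fin (n + 1)) Ω) :
    mulT (fun m => MvPolynomial.map φ (A m)) (MvPolynomial.map φ l) =
      fun m => MvPolynomial.map φ (mulT A l m) := by
  funext m
  unfold mulT
  rw [map_mul]

theorem WT_imv (hF : ∀ m, D'.F m = MvPolynomial.map φ (D.F m))
    (hd : ∀ m I z, D'.del m I (φ z) = φ (D.del m I z)) (p q : Fin (n + 1)) :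
    WT D' (imv φ x) p q = imv φ (WT D x p q) := by
  unfold WT
  have h : (fun m => X q * pderiv p (D'.F m)) =
      fun m => MvPolynomial.map φ (X q * pderiv p (D.F m)) := by
    funext m
    rw [map_mul, map_X, hF, pderiv_map]
  rw [h, VT_imv φ D D' x hd, imv_add, imv_smul, imv_apply]
  congr 2
  funext s
  rw [imv_apply, Pi.single_apply, Pi.single_apply]
  split_ifs <;> simp

end tr

section tup

variable {E M : Type} [Field E] [AddCommGroup M] [Module E M] {n c : ℕ} {d : Fin c → ℕ}

/-- a tuple is the sum of its monomials -/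
theorem tup_sum (A : TP E n c) : A = ∑ m, ∑ I ∈ (A m).support,
    coeff I (A m) • (Pi.single m (monomial I 1) : TP E n c) := by
  classical
  funext m'
  rw [Finset.sum_apply]
  have h : ∀ m, (∑ I ∈ (A m).support,
      coeff I (A m) • (Pi.single m (monomial I 1) : TP E n c)) m' =
      if m = m' then A m' else 0 := by
    intro m
    rw [Finset.sum_apply]
    by_cases hm : m = m'
    · subst hm
      rw [if_pos rfl]
      conv_rhs => rw [(A m).as_sum]
      refine Finset.sum_congr rfl fun I _ => ?_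
      rw [Pi.smul_apply, Pi.single_eq_same, smul_monomial, smul_eq_mul, mul_one]
    · rw [if_neg hm]
      refine Finset.sum_eq_zero fun I _ => ?_
      rw [Pi.smul_apply, Pi.single_eq_of_ne (Ne.symm hm), smul_zero]
  simp only [h]
  simp

/-- linear maps on tuples are determined by monomials -/
theorem tup_mem (L : TP E n c →ₗ[E] M) (S : Submodule E M)
    (h : ∀ m (I : Fin (n + 1) →₀ ℕ), I.degree + 1 = d m → L (Pi.single m (monomial I 1)) ∈ S)
    (A : TP E n c) (hA : Adm d A) : L A ∈ S := by
  rw [tup_sum A, map_sum]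
  refine Submodule.sum_mem _ fun m _ => ?_
  rw [map_sum]
  refine Submodule.sum_mem _ fun I hI => ?_
  rw [map_smul]
  exact Submodule.smul_mem _ _ (h m I (hA m I (mem_support_iff.1 hI)))

/-- matrices by linearity -/
theorem tup_mat {r : ℕ} (V : TP E n c →ₗ[E] (Fin (n + 1) → E))
    (l : Fin r → MvPolynomial (Fin (n + 1)) E) (w : Fin r → Fin (n + 1) → E)
    (S : Submodule E (Fin (n + 1) → E))
    (a0 : Fin c → (Fin (n + 1) →₀ ℕ) → Matrix (Fin r) (Fin r) E)
    (h : ∀ m I, I.degree + 1 = d m → ∀ j,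
      V (mulT (Pi.single m (monomial I 1)) (l j)) - ∑ i, a0 m I i j • w i ∈ S)
    (A : TP E n c) (hA : Adm d A) (j : Fin r) :
    V (mulT A (l j)) -
      ∑ i, (∑ m, ∑ I ∈ (A m).support, coeff I (A m) • a0 m I) i j • w i ∈ S := by
  have h1 : V (mulT A (l j)) = ∑ m, ∑ I ∈ (A m).support,
      coeff I (A m) • V (mulT (Pi.single m (monomial I 1)) (l j)) := by
    have h2 : mulT A (l j) = ∑ m, ∑ I ∈ (A m).support,
        coeff I (A m) • mulT (Pi.single m (monomial I 1) : TP E n c) (l j) := by
      conv_lhs => rw [tup_sum A]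
      funext m'
      unfold mulT
      simp only [Finset.sum_apply, Finset.sum_mul, Pi.smul_apply, smul_mul_assoc]
    rw [h2, map_sum]
    refine Finset.sum_congr rfl fun m _ => ?_
    rw [map_sum]
    exact Finset.sum_congr rfl fun I _ => map_smul _ _ _
  have h3 : V (mulT A (l j)) -
      ∑ i, (∑ m, ∑ I ∈ (A m).support, coeff I (A m) • a0 m I) i j • w i =
      ∑ m, ∑ I ∈ (A m).support, coeff I (A m) •
        (V (mulT (Pi.single m (monomial I 1)) (l j)) - ∑ i, a0 m I i j • w i) := by
    rw [h1]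
    simp only [smul_sub, Finset.sum_sub_distrib, Finset.smul_sum, Matrix.sum_apply,
      Matrix.smul_apply, Finset.sum_smul, smul_smul, smul_eq_mul]
    congr 1
    rw [Finset.sum_comm]
    refine Finset.sum_congr rfl fun m _ => ?_
    rw [Finset.sum_comm]
  rw [h3]
  exact Submodule.sum_mem _ fun m _ => Submodule.sum_mem _ fun I hI =>
    Submodule.smul_mem _ _ (h m I (hA m I (mem_support_iff.1 hI)) j)

theorem tup_mono {r : ℕ} (a0 : Fin c → (Fin (n + 1) →₀ ℕ) → Matrix (Fin r) (Fin r) E)
    (m : Fin c) (I : Fin (n + 1) →₀ ℕ) :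
    ∑ m', ∑ J ∈ ((Pi.single m (monomial I (1 : E)) : TP E n c) m').support,
      coeff J ((Pi.single m (monomial I (1 : E)) : TP E n c) m') • a0 m' J = a0 m I := by
  classical
  rw [Finset.sum_eq_single m]
  · rw [Pi.single_eq_same, support_monomial, if_neg one_ne_zero, Finset.sum_singleton,
      coeff_monomial, if_pos rfl, one_smul]
  · intro m' _ hm'
    rw [Pi.single_eq_of_ne hm', support_zero, Finset.sum_empty]
  · intro hm
    exact absurd (Finset.mem_univ m) hm

end tup

end Pool.Agent.T2C.H2
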