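import Pool.Agent.Lib.MP_c7af3c_ag.T2C.IfaceA
import Pool.Agent.Lib.MP_c7af3c_ag.T2C.H2.ExtT

/-!
# MP_c7af3c_ag, project T2C, module EXTA: passage to algebraically closed fields
-/

set_option autoImplicit false

namespace Pool.Agent.T2C.H2

open MvPolynomial Pool.Agent.Gen Pool.Agent.Sharp Pool.Agent.Edge
open Pool.Agent.T2 (Fk Rac lnf Sizes Sit)
open Pool.Agent.T2.H2 (li_map dec rac_of_closed ind_K)

/-! ### descent of membership -/

section desc

variable {F E κ : Type*} [Field F] [Field E] [Fintype κ]

theorem mem_desc (φ : F →+* E) {N : ℕ} (c : Fin N → E)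
    (hc : ∀ ω : Fin N → F, ∑ j, c j * φ (ω j) = 0 → ω = 0) (S : Set (κ → F))
    (u : Fin N → κ → F)
    (h : ∑ j, c j • (fun p => φ (u j p)) ∈
      Submodule.span E ((fun (v : κ → F) p => φ (v p)) '' S)) (j : Fin N) :
    u j ∈ Submodule.span F S := by
  classical
  by_contra hn
  obtain ⟨f, hf, hf0⟩ := Submodule.exists_dual_map_eq_bot_of_notMem hn inferInstance
  have hf1 : ∀ v ∈ Submodule.span F S, f v = 0 := by
    intro v hv
    have h1 : f v ∈ (Submodule.span F S).map f := ⟨v, hv, rfl⟩
    rw [hf0] at h1
    exact (Submodule.mem_bot F).1 h1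
  have hfe : ∀ v, f v = ∑ p, f (Pi.single p 1) * v p := by
    intro v
    have h2 : v = ∑ p, v p • (Pi.single p 1 : κ → F) := by
      funext q
      simp [Finset.sum_apply, Pi.single_apply]
    conv_lhs => rw [h2]
    rw [map_sum]
    refine Finset.sum_congr rfl fun p _ => ?_
    rw [map_smul, smul_eq_mul, mul_comm]
  have hfφ : ∀ v : κ → F, ∑ p, φ (f (Pi.single p 1)) * φ (v p) = φ (f v) := by
    intro v
    rw [hfe, map_sum]
    exact Finset.sum_congr rfl fun p _ => (map_mul φ _ _).symm
  have hfE : ∀ v ∈ Submodule.span E ((fun (v : κ → F) p => φ (v p)) '' S),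
      ∑ p, φ (f (Pi.single p 1)) * v p = 0 := by
    intro v hv
    induction hv using Submodule.span_induction with
    | mem v hv =>
        obtain ⟨v', hv', rfl⟩ := hv
        change ∑ p, φ (f (Pi.single p 1)) * φ (v' p) = 0
        rw [hfφ, hf1 _ (Submodule.subset_span hv'), map_zero]
    | zero => simp
    | add u v _ _ h1 h2 =>
        simp only [Pi.add_apply, mul_add, Finset.sum_add_distrib]
        rw [h1, h2, add_zero]
    | smul c u _ h1 =>
        simp only [Pi.smul_apply, smul_eq_mul]
        have h4 : ∑ p, φ (f (Pi.single p 1)) * (c * u p) =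
            c * ∑ p, φ (f (Pi.single p 1)) * u p := by
          rw [Finset.mul_sum]
          exact Finset.sum_congr rfl fun p _ => by ring
        rw [h4, h1, mul_zero]
  have h5 := hfE _ h
  have h7 : ∑ i, c i * φ (f (u i)) = 0 := by
    rw [← h5]
    simp only [Finset.sum_apply, Pi.smul_apply, smul_eq_mul, Finset.mul_sum]
    rw [Finset.sum_comm]
    refine Finset.sum_congr rfl fun i _ => ?_
    rw [← hfφ, Finset.mul_sum]
    exact Finset.sum_congr rfl fun p _ => by ring
  exact hf (congrFun (hc (fun i => f (u i)) h7) j)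

end desc

/-! ### the spans -/

section sp

variable {Ω : Type} [Field Ω] {n : ℕ}

theorem Hs_imv {E : Type} [Field E] (φ : Ω →+* E) (x : Fin (n + 1) → Ω) {s : ℕ}
    (η : Fin s → Fin (n + 1) → Ω) {u : Fin (n + 1) → Ω} (hu : u ∈ Hs x η) :
    imv φ u ∈ Hs (imv φ x) (fun a => imv φ (η a)) := by
  unfold Hs at hu ⊢
  induction hu using Submodule.span_induction with
  | mem w hw =>
      rcases hw with rfl | ⟨a, rfl⟩
      · exact Submodule.subset_span (Or.inl rfl)
      · exact Submodule.subset_span (Or.inr ⟨a, rfl⟩)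
  | zero =>
      rw [imv_zero]
      exact Submodule.zero_mem _
  | add a b _ _ ha hb =>
      rw [imv_add]
      exact Submodule.add_mem _ ha hb
  | smul c a _ ha =>
      rw [imv_smul]
      exact Submodule.smul_mem _ _ ha

theorem Hs_image {E : Type} [Field E] (φ : Ω →+* E) (x : Fin (n + 1) → Ω) {s : ℕ}
    (η : Fin s → Fin (n + 1) → Ω) : Hs (imv φ x) (fun a => imv φ (η a)) =
      Submodule.span E ((fun (v : Fin (n + 1) → Ω) p => φ (v p)) '' insert x (Set.range η)) := by
  unfold Hs
  congr 1
  ext u
  constructor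
  · rintro (rfl | ⟨a, rfl⟩)
    · exact ⟨x, Or.inl rfl, rfl⟩
    · exact ⟨η a, Or.inr ⟨a, rfl⟩, rfl⟩
  · rintro ⟨v, rfl | ⟨a, rfl⟩, rfl⟩
    · exact Or.inl rfl
    · exact Or.inr ⟨a, rfl⟩

/-- uniqueness of the matrix -/
theorem mat_uniq {s r : ℕ} {x : Fin (n + 1) → Ω} {η : Fin s → Fin (n + 1) → Ω}
    {w : Fin r → Fin (n + 1) → Ω}
    (bas : LinearIndependent Ω (Sum.elim (fun _ : Unit => x) (Sum.elim η w)))
    (c : Fin r → Ω) (hc : ∑ i : Fin r, c i • w i ∈ Hs x η) : c = 0 := by
  have hr : insert x (Set.range η) = Set.range (Sum.elim (fun _ : Unit => x) η) := by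
    ext u
    constructor
    · rintro (rfl | ⟨a, rfl⟩)
      · exact ⟨Sum.inl (), rfl⟩
      · exact ⟨Sum.inr a, rfl⟩
    · rintro ⟨a | a, rfl⟩
      · exact Or.inl rfl
      · exact Or.inr ⟨a, rfl⟩
  unfold Hs at hc
  rw [hr] at hc
  obtain ⟨e, he⟩ := (Submodule.mem_span_range_iff_exists_fun Ω).1 hc
  rw [Fintype.sum_sum_type] at he
  have h1 := Fintype.linearIndependent_iff.1 bas
    (Sum.elim (fun a => e (Sum.inl a)) (Sum.elim (fun a => e (Sum.inr a)) fun a => - c a)) (by
      rw [Fintype.sum_sum_type, Fintype.sum_sum_type]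
      simp only [Sum.elim_inl, Sum.elim_inr, neg_smul, Finset.sum_neg_distrib]
      simp only [Sum.elim_inl, Sum.elim_inr] at he
      rw [← he]
      abel)
  funext i
  have h2 := h1 (Sum.inr (Sum.inr i))
  simp only [Sum.elim_inr, neg_eq_zero] at h2
  exact h2

/-- a column which is in the span after the base change has coefficients -/
theorem mat_desc {E : Type} [Field E] (φ : Ω →+* E) {s r : ℕ} (x : Fin (n + 1) → Ω)
    (η : Fin s → Fin (n + 1) → Ω) (w : Fin r → Fin (n + 1) → Ω) (u : Fin (n + 1) → Ω)
    (b : Fin r → E)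
    (h : imv φ u - ∑ i, b i • imv φ (w i) ∈ Hs (imv φ x) (fun a => imv φ (η a))) :
    ∃ m : Fin r → Ω, u - ∑ i, m i • w i ∈ Hs x η := by
  classical
  have h1 : imv φ u ∈ Submodule.span E ((fun (v : Fin (n + 1) → Ω) p => φ (v p)) ''
      (insert x (Set.range η) ∪ Set.range w)) := by
    rw [Hs_image] at h
    have h2 : imv φ u = (imv φ u - ∑ i, b i • imv φ (w i)) + ∑ i, b i • imv φ (w i) := by
      rw [sub_add_cancel]
    rw [h2]
    refine Submodule.add_mem _ (Submodule.span_mono (Set.image_mono Set.subset_union_left) h)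
      (Submodule.sum_mem _ fun i _ => Submodule.smul_mem _ _ (Submodule.subset_span
        ⟨w i, Or.inr ⟨i, rfl⟩, rfl⟩))
  have h3 := mem_desc φ (fun _ : Fin 1 => (1 : E)) (fun ω hω => by
    rw [Fin.sum_univ_one, one_mul] at hω
    funext j
    rw [Subsingleton.elim j 0]
    exact (map_eq_zero φ).1 hω) (insert x (Set.range η) ∪ Set.range w) (fun _ => u)
    (by
      rw [Fin.sum_univ_one, one_smul]
      exact h1) 0
  rw [Submodule.span_union] at h3
  obtain ⟨y, hy, z, hz, hyz⟩ := Submodule.mem_sup.1 h3
  obtain ⟨m, hm⟩ := (Submodule.mem_span_range_iff_exists_fun Ω).1 hz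
  refine ⟨m, ?_⟩
  rw [hm, ← hyz, add_sub_cancel_right]
  exact hy

end sp

/-- the product with a fixed form, as a linear map in the tuple -/
noncomputable def mulL {E : Type} [Field E] {n c : ℕ} (l : MvPolynomial (Fin (n + 1)) E) :
    TP E n c →ₗ[E] TP E n c where
  toFun A := mulT A l
  map_add' A B := by
    funext m
    unfold mulT
    rw [Pi.add_apply, Pi.add_apply, add_mul]
  map_smul' z A := by
    funext m
    unfold mulT
    rw [RingHom.id_apply, Pi.smul_apply, Pi.smul_apply, smul_mul_assoc]

theorem single_map {Ω E : Type} [Field Ω] [Field E] (φ : Ω →+* E) {n c : ℕ} (m : Fin c)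
    (G : MvPolynomial (Fin (n + 1)) Ω) : (fun m' => MvPolynomial.map φ
      ((Pi.single m G : TP Ω n c) m')) = (Pi.single m (MvPolynomial.map φ G) : TP E n c) := by
  classical
  funext m'
  rw [Pi.single_apply, Pi.single_apply]
  split_ifs
  · rfl
  · exact map_zero _

theorem single_adm {E : Type} [Field E] {n c : ℕ} {d : Fin c → ℕ} (m : Fin c)
    (I : Fin (n + 1) →₀ ℕ) (hI : I.degree + 1 = d m) :
    Adm d (Pi.single m (monomial I (1 : E)) : TP E n c) := by
  classical
  intro m' J hJ
  by_cases hm : m' = m
  · subst hm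
    rw [Pi.single_eq_same, coeff_monomial] at hJ
    split_ifs at hJ with hIJ
    · rw [← hIJ]
      exact hI
    · exact absurd rfl hJ
  · rw [Pi.single_eq_of_ne hm, coeff_zero] at hJ
    exact absurd rfl hJ

/-! ### annihilators -/

section ann

variable {Ω : Type} [Field Ω] [CharZero Ω] {k : Subfield Ω}
  {K : Subfield (AlgebraicClosure Ω)} {n c : ℕ} {d : Fin c → ℕ}

theorem annH_dec (hkK : ∀ z ∈ k, algebraMap Ω (AlgebraicClosure Ω) z ∈ K)
    (hld : ∀ (N : ℕ) (y : Fin N → Ω),
      (∀ a : Fin N → Ω, (∀ i, a i ∈ k) → ∑ i, a i * y i = 0 → a = 0) →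
      ∀ a : Fin N → AlgebraicClosure Ω, (∀ i, a i ∈ K) →
        ∑ i, a i * algebraMap Ω (AlgebraicClosure Ω) (y i) = 0 → a = 0)
    (D : DSys Ω n c d) (D' : DSys (AlgebraicClosure Ω) n c d)
    (hd : ∀ m I z, D'.del m I (algebraMap Ω (AlgebraicClosure Ω) z) =
      algebraMap Ω (AlgebraicClosure Ω) (D.del m I z))
    (x : Fin (n + 1) → Ω) {s : ℕ} (η : Fin s → Fin (n + 1) → Ω) (m0 : Fin c)
    (w : MvPolynomial (Fin (n + 1)) (AlgebraicClosure Ω)) (hw : Fk K 2 w)
    (hv : AnnH D' (imv (algebraMap Ω (AlgebraicClosure Ω)) x)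
      (fun a => imv (algebraMap Ω (AlgebraicClosure Ω)) (η a)) m0 w) :
    ∃ (N : ℕ) (κ : Fin N → AlgebraicClosure Ω) (wj : Fin N → MvPolynomial (Fin (n + 1)) Ω),
      (∀ j, κ j ∈ K) ∧
      w = ∑ j, κ j • MvPolynomial.map (algebraMap Ω (AlgebraicClosure Ω)) (wj j) ∧
      (∀ j, Fk k 2 (wj j)) ∧ ∀ j, AnnH D x η m0 (wj j) := by
  classical
  let φ : Ω →+* AlgebraicClosure Ω := algebraMap Ω (AlgebraicClosure Ω)
  have hkK' : ∀ z ∈ k, φ z ∈ K := hkK
  obtain ⟨N, κ, b, hi, hc, hsp⟩ := dec (F := k) (E := AlgebraicClosure Ω)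
    (fun I : w.support => coeff I.1 w)
  have hκK : ∀ j, κ j ∈ K := by
    intro j
    have h1 := hsp j
    generalize κ j = z at h1
    induction h1 using Submodule.span_induction with
    | mem u hu =>
        obtain ⟨I, rfl⟩ := hu
        exact hw.2 _
    | zero => exact zero_mem K
    | add u v _ _ h1 h2 => exact add_mem h1 h2
    | smul c u _ h1 =>
        change (c : Ω) • u ∈ K
        rw [Algebra.smul_def]
        exact mul_mem (hkK' _ c.2) h1
  have hc' : ∀ I : w.support, coeff I.1 w = ∑ j, φ (b I j : Ω) * κ j := hc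
  let wj : Fin N → MvPolynomial (Fin (n + 1)) Ω := fun j =>
    ∑ I : w.support, monomial I.1 (b I j : Ω)
  have hwj : w = ∑ j, κ j • MvPolynomial.map φ (wj j) := by
    have h1 : ∀ j, MvPolynomial.map φ (wj j) = ∑ I : w.support, monomial I.1 (φ (b I j : Ω)) := by
      intro j
      rw [map_sum]
      exact Finset.sum_congr rfl fun I _ => map_monomial φ _ _
    simp only [h1, Finset.smul_sum, smul_monomial, smul_eq_mul]
    rw [Finset.sum_comm]
    conv_lhs => rw [w.as_sum, ← Finset.sum_coe_sort]
    refine Finset.sum_congr rfl fun I _ => ?_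
    rw [hc' I, map_sum]
    refine Finset.sum_congr rfl fun j _ => ?_
    rw [mul_comm]
  have hwk : ∀ j, Fk k 2 (wj j) := by
    intro j
    constructor
    · refine IsHomogeneous.sum _ _ _ fun I _ => isHomogeneous_monomial _ ?_
      have h2 := hw.1 (mem_support_iff.1 I.2)
      rw [Finsupp.degree_eq_weight_one]
      exact h2
    · intro J
      rw [coeff_sum]
      refine sum_mem fun I _ => ?_
      rw [coeff_monomial]
      split_ifs
      · exact (b I j).2
      · exact zero_mem k
  refine ⟨N, κ, wj, hκK, hwj, hwk, fun j H hH hx => ?_⟩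
  have h5 := hv (MvPolynomial.map φ H) (hH.map φ) (by rw [eval_imv, hx, map_zero])
  have h6 : VT D' (imv φ x) (Pi.single m0 (w * MvPolynomial.map φ H)) =
      ∑ i, κ i • imv φ (VT D x (Pi.single m0 (wj i * H))) := by
    have h8 : (Pi.single m0 (w * MvPolynomial.map φ H) : TP (AlgebraicClosure Ω) n c) =
        ∑ i, κ i • (Pi.single m0 (MvPolynomial.map φ (wj i * H)) :
          TP (AlgebraicClosure Ω) n c) := by
      funext m'
      rw [Finset.sum_apply]
      by_cases hm : m' = m0
      · subst hm
        rw [Pi.single_eq_same]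
        conv_lhs => rw [hwj]
        rw [Finset.sum_mul]
        refine Finset.sum_congr rfl fun i _ => ?_
        rw [Pi.smul_apply, Pi.single_eq_same, map_mul, smul_mul_assoc]
      · rw [Pi.single_eq_of_ne hm]
        refine (Finset.sum_eq_zero fun i _ => ?_).symm
        rw [Pi.smul_apply, Pi.single_eq_of_ne hm, smul_zero]
    rw [h8, map_sum]
    refine Finset.sum_congr rfl fun i _ => ?_
    rw [map_smul, ← single_map, VT_imv φ D D' x hd]
  rw [h6, Hs_image] at h5
  exact mem_desc φ κ (fun ω hω => ind_K hkK hld κ hκK hi ω hω) (insert x (Set.range η))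
    (fun i => VT D x (Pi.single m0 (wj i * H))) h5 j

end ann

/-- Module EXTA. -/
theorem exta : ExtaStatement := by
  classical
  intro hLd hDex Ω _ _ k n c d D x j0 s r η t P A0 h
  obtain ⟨K, hKc, hkK, hld⟩ := hLd Ω k h.kalg
  obtain ⟨D', hF, hd⟩ := hDex Ω n c d D
  let φ : Ω →+* AlgebraicClosure Ω := algebraMap Ω (AlgebraicClosure Ω)
  have hkK' : ∀ z ∈ k, φ z ∈ K := hkK
  have hd' : ∀ m I z, D'.del m I (φ z) = φ (D.del m I z) := hd
  have hF' : ∀ m, D'.F m = MvPolynomial.map φ (D.F m) := hF
  have hVT : ∀ G : TP Ω n c, VT D' (imv φ x) (fun m => MvPolynomial.map φ (G m)) =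
      imv φ (VT D x G) := fun G => VT_imv φ D D' x hd' G
  have hVl : ∀ (G : TP Ω n c) i,
      VT D' (imv φ x) (mulT (fun m => MvPolynomial.map φ (G m)) (lf (imv φ x) j0 i)) =
      imv φ (VT D x (mulT G (lf x j0 i))) := fun G i => by
    rw [lf_imv, mulT_imv, hVT]
  have hmono : ∀ (m : Fin c) (I : Fin (n + 1) →₀ ℕ),
      (Pi.single m (monomial I 1) : TP (AlgebraicClosure Ω) n c) = fun m' =>
        MvPolynomial.map φ ((Pi.single m (monomial I 1) : TP Ω n c) m') := fun m I => by
    rw [single_map, map_monomial, map_one φ]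
  let A0' : TP (AlgebraicClosure Ω) n c := fun m => MvPolynomial.map φ (A0 m)
  have bas' : LinearIndependent (AlgebraicClosure Ω) (Sum.elim (fun _ : Unit => imv φ x)
      (Sum.elim (fun a => imv φ (η a)) fun b : Fin r =>
        VT D' (imv φ x) (mulT A0' (lf (imv φ x) j0 (t b.succ))))) := by
    have h1 := li_map φ _ h.bas
    have h2 : (fun i p => φ (Sum.elim (fun _ : Unit => x)
        (Sum.elim η fun b : Fin r => VT D x (mulT A0 (lf x j0 (t b.succ)))) i p)) =
        (Sum.elim (fun _ : Unit => imv φ x) (Sum.elim (fun a => imv φ (η a)) fun b : Fin r =>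
        VT D' (imv φ x) (mulT A0' (lf (imv φ x) j0 (t b.succ))))) := by
      funext i p
      rcases i with i | i | i
      · rfl
      · rfl
      · rw [Sum.elim_inr, Sum.elim_inr, Sum.elim_inr, Sum.elim_inr, hVl]
        rfl
    rwa [h2] at h1
  have hword : ∀ a : TP (AlgebraicClosure Ω) n c → Matrix (Fin r) (Fin r) (AlgebraicClosure Ω),
      (∀ A : TP (AlgebraicClosure Ω) n c, Adm d A → ∀ j : Fin r,
        VT D' (imv φ x) (mulT A (lf (imv φ x) j0 (t j.succ))) -
          ∑ i : Fin r, a A i j • VT D' (imv φ x) (mulT A0' (lf (imv φ x) j0 (t i.succ))) ∈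
            Hs (imv φ x) (fun a => imv φ (η a))) →
      ∀ l : List (TP (AlgebraicClosure Ω) n c), (∀ A ∈ l, Tk K d A) →
        Matrix.trace ((l.map a).prod) ∈ K := by
    intro a ha l hl
    have hm : ∀ (m : Fin c) (I : Fin (n + 1) →₀ ℕ), ∃ M : Matrix (Fin r) (Fin r) Ω,
        I.degree + 1 = d m → ∀ j : Fin r,
        VT D x (mulT (Pi.single m (monomial I 1)) (lf x j0 (t j.succ))) -
        ∑ i : Fin r, M i j • VT D x (mulT A0 (lf x j0 (t i.succ))) ∈ Hs x η := by
      intro m I
      by_cases hI : I.degree + 1 = d m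
      · have h1 : ∀ j : Fin r, ∃ M : Fin r → Ω,
            VT D x (mulT (Pi.single m (monomial I 1)) (lf x j0 (t j.succ))) -
            ∑ i : Fin r, M i • VT D x (mulT A0 (lf x j0 (t i.succ))) ∈ Hs x η := by
          intro j
          refine mat_desc φ x η _ _ (fun i => a (Pi.single m (monomial I 1)) i j) ?_
          have h2 := ha (Pi.single m (monomial I 1)) (single_adm m I hI) j
          rw [hmono, hVl, ← hmono] at h2
          rw [Finset.sum_congr rfl fun i _ => by rw [hVl]] at h2
          exact h2
        choose M hM using h1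
        exact ⟨fun i j => M j i, fun _ j => hM j⟩
      · exact ⟨0, fun h' => absurd h' hI⟩
    choose a0 ha0 using hm
    have hw : ∀ w : List (Fin c × (Fin (n + 1) →₀ ℕ)), (∀ q ∈ w, q.2.degree + 1 = d q.1) →
        Matrix.trace ((w.map fun q => a0 q.1 q.2).prod) ∈ k := by
      intro w hw
      have h1 := h.word (fun A => ∑ m, ∑ I ∈ (A m).support, coeff I (A m) • a0 m I)
        (fun A hA j => tup_mat (VT D x) (fun j => lf x j0 (t j.succ))
          (fun i => VT D x (mulT A0 (lf x j0 (t i.succ)))) (Hs x η) a0 ha0 A hA j)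
        (w.map fun q => Pi.single q.1 (monomial q.2 1)) (fun A hA => by
          obtain ⟨q, hq, rfl⟩ := List.mem_map.1 hA
          refine ⟨single_adm _ _ (hw q hq), fun m J => ?_⟩
          by_cases hm : m = q.1
          · rw [hm, Pi.single_eq_same, coeff_monomial]
            split_ifs
            · exact one_mem k
            · exact zero_mem k
          · rw [Pi.single_eq_of_ne hm, coeff_zero]
            exact zero_mem k)
      rw [List.map_map] at h1
      have h2 : ((fun A : TP Ω n c => ∑ m, ∑ I ∈ (A m).support, coeff I (A m) • a0 m I) ∘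
          fun q : Fin c × (Fin (n + 1) →₀ ℕ) => (Pi.single q.1 (monomial q.2 1) : TP Ω n c)) =
          fun q => a0 q.1 q.2 := by
        funext q
        exact tup_mono a0 q.1 q.2
      rwa [h2] at h1
    -- the matrices over the closure
    have haE : ∀ A : TP (AlgebraicClosure Ω) n c, Adm d A →
        a A = ∑ m, ∑ I ∈ (A m).support, coeff I (A m) • (a0 m I).map φ := by
      intro A hA
      have h1 := tup_mat (VT D' (imv φ x)) (fun j => lf (imv φ x) j0 (t j.succ))
          (fun i => VT D' (imv φ x) (mulT A0' (lf (imv φ x) j0 (t i.succ))))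
          (Hs (imv φ x) fun a => imv φ (η a)) (fun m I => (a0 m I).map φ) (fun m I hI j => by
            have h2 := Hs_imv φ x η (ha0 m I hI j)
            rw [imv_sub, imv_sum] at h2
            have h3 : VT D' (imv φ x) (mulT (Pi.single m (monomial I 1))
                (lf (imv φ x) j0 (t j.succ))) =
                imv φ (VT D x (mulT (Pi.single m (monomial I 1)) (lf x j0 (t j.succ)))) := by
              rw [hmono, hVl]
            rw [h3]
            have h4 : ∑ i, (a0 m I).map φ i j •
                VT D' (imv φ x) (mulT A0' (lf (imv φ x) j0 (t i.succ))) =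
                ∑ i, imv φ (a0 m I i j • VT D x (mulT A0 (lf x j0 (t i.succ)))) :=
              Finset.sum_congr rfl fun i _ => by
                rw [hVl, imv_smul, Matrix.map_apply]
            rw [h4]
            exact h2) A hA
      ext i j
      have h5 := mat_uniq bas' (fun i => a A i j -
        (∑ m, ∑ I ∈ (A m).support, coeff I (A m) • (a0 m I).map φ) i j) (by
          have h6 := Submodule.sub_mem _ (h1 j) (ha A hA j)
          have h7 : (VT D' (imv φ x)) (mulT A (lf (imv φ x) j0 (t j.succ))) -
              ∑ i, (∑ m, ∑ I ∈ (A m).support, coeff I (A m) • (a0 m I).map φ) i j •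
              VT D' (imv φ x) (mulT A0' (lf (imv φ x) j0 (t i.succ))) -
              ((VT D' (imv φ x)) (mulT A (lf (imv φ x) j0 (t j.succ))) -
              ∑ i, a A i j •
              VT D' (imv φ x) (mulT A0' (lf (imv φ x) j0 (t i.succ)))) =
              ∑ i, (a A i j - (∑ m, ∑ I ∈ (A m).support,
                coeff I (A m) • (a0 m I).map φ) i j) •
              VT D' (imv φ x) (mulT A0' (lf (imv φ x) j0 (t i.succ))) := by
            rw [sub_sub_sub_cancel_left, ← Finset.sum_sub_distrib]
            exact Finset.sum_congr rfl fun i _ => (sub_smul _ _ _).symm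
          rwa [h7] at h6)
      have h8 := congrFun h5 i
      exact sub_eq_zero.1 h8
    let G : AddSubgroup (Matrix (Fin r) (Fin r) (AlgebraicClosure Ω)) :=
      AddSubgroup.closure {M | ∃ κ ∈ K, ∃ w : List (Fin c × (Fin (n + 1) →₀ ℕ)),
        (∀ q ∈ w, q.2.degree + 1 = d q.1) ∧
        M = κ • ((w.map fun q => a0 q.1 q.2).prod).map φ}
    have hmul : ∀ A : TP (AlgebraicClosure Ω) n c, Tk K d A → ∀ M ∈ G, a A * M ∈ G := by
      intro A hA M hM
      rw [haE A hA.1, Finset.sum_mul]
      refine sum_mem fun m _ => ?_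
      rw [Finset.sum_mul]
      refine sum_mem fun I hI => ?_
      have hI5 : I.degree + 1 = d m := hA.1 m I (mem_support_iff.1 hI)
      induction hM using AddSubgroup.closure_induction with
      | mem M hM =>
          obtain ⟨κ, hκ, w, hw', rfl⟩ := hM
          refine AddSubgroup.subset_closure
            ⟨coeff I (A m) * κ, mul_mem (hA.2 m I) hκ, (m, I) :: w, ?_, ?_⟩
          · intro q hq
            rcases List.mem_cons.1 hq with rfl | hq
            · exact hI5
            · exact hw' q hq
          · rw [List.map_cons, List.prod_cons, Matrix.map_mul, smul_mul_smul_comm]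
      | zero =>
          rw [mul_zero]
          exact zero_mem _
      | add M N _ _ h1 h2 =>
          rw [mul_add]
          exact add_mem h1 h2
      | neg M _ h1 =>
          rw [mul_neg]
          exact neg_mem h1
    have hprod : ∀ l : List (TP (AlgebraicClosure Ω) n c),
        (∀ A ∈ l, Tk K d A) → (l.map a).prod ∈ G := by
      intro l
      induction l with
      | nil =>
          intro _
          refine AddSubgroup.subset_closure ⟨1, one_mem K, [], fun I hI => absurd hI (by simp), ?_⟩
          rw [List.map_nil, List.prod_nil, List.map_nil, List.prod_nil, one_smul,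
            Matrix.map_one φ (map_zero φ) (map_one φ)]
      | cons A l ih =>
          intro hl
          rw [List.map_cons, List.prod_cons]
          exact hmul A (hl A (by simp)) _ (ih fun B hB => hl B (by simp [hB]))
    have htr : ∀ M ∈ G, Matrix.trace M ∈ K := by
      intro M hM
      induction hM using AddSubgroup.closure_induction with
      | mem M hM =>
          obtain ⟨κ, hκ, w, hw', rfl⟩ := hM
          rw [Matrix.trace_smul, smul_eq_mul]
          refine mul_mem hκ ?_
          have h1 : Matrix.trace (((w.map fun q => a0 q.1 q.2).prod).map φ) =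
              φ (Matrix.trace ((w.map fun q => a0 q.1 q.2).prod)) := by
            unfold Matrix.trace
            rw [map_sum]
            rfl
          rw [h1]
          exact hkK' _ (hw w hw')
      | zero =>
          rw [Matrix.trace_zero]
          exact zero_mem _
      | add M N _ _ h1 h2 =>
          rw [Matrix.trace_add]
          exact add_mem h1 h2
      | neg M _ h1 =>
          rw [Matrix.trace_neg]
          exact neg_mem h1
    exact htr _ (hprod l hl)
  refine ⟨AlgebraicClosure Ω, inferInstance, inferInstance, inferInstance, K, D', imv φ x,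
    fun a => imv φ (η a), fun i => imv φ (P i), A0', hKc, ?_, ?_, ?_⟩
  · exact
      { hj0 := by rw [imv_apply, h.hj0, map_one]
        h0 := fun m => by rw [hF', eval_imv, h.h0, map_zero]
        kF := fun m I => by
          rw [hF', coeff_map]
          exact hkK' _ (h.kF m I)
        kalg := rac_of_closed K hKc
        sr := h.sr
        r2 := h.r2
        hull :=
          { t0 := h.hull.t0
            Pt := fun i j => by
              rw [imv_apply, h.hull.Pt]
              split_ifs
              · exact map_one φ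
              · exact map_zero φ
            xP := fun f => by
              rw [imv_apply, h.hull.xP f, map_sum]
              exact Finset.sum_congr rfl fun i _ => map_mul φ _ _
            Pk := fun i f => hkK' _ (h.hull.Pk i f)
            yk := fun a ha h0 => hld (r + 1) (fun i => x (t i)) h.hull.yk a ha h0 }
        gη := fun i m => by
          have h1 := congrArg φ (h.gη i m)
          rw [map_sum, map_zero] at h1
          rw [← h1]
          refine Finset.sum_congr rfl fun p _ => ?_
          rw [hF', pderiv_map, eval_imv, map_mul φ]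
          rfl
        w := fun p q => by
          rw [WT_imv φ D D' x hF' hd']
          exact Hs_imv φ x η (h.w p q)
        van := fun A hA f => by
          refine tup_mem ((VT D' (imv φ x)).comp (mulL (lam t (fun i => imv φ (P i)) f))) _
            (fun m I hI => ?_) A hA
          change VT D' (imv φ x) (mulT (Pi.single m (monomial I 1))
            (lam t (fun i => imv φ (P i)) f)) ∈ _
          have h2 : lam t (fun i => imv φ (P i)) f = MvPolynomial.map φ (lam t P f) := by
            unfold lam
            simp [imv]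
          rw [h2, hmono, mulT_imv, hVT]
          exact Hs_imv φ x η (h.van _ (single_adm m I hI) f)
        A0k := ⟨fun m I hI => h.A0k.1 m I fun h0 => hI (by
            change coeff I (MvPolynomial.map φ (A0 m)) = 0
            rw [coeff_map, h0, map_zero]), fun m I => by
          change coeff I (MvPolynomial.map φ (A0 m)) ∈ K
          rw [coeff_map]
          exact hkK' _ (h.A0k.2 m I)⟩
        bas := bas'
        word := hword }
  · intro m0 hA w hw hv
    obtain ⟨N, κ, wj, hκ, hwj, hwk, hwa⟩ := annH_dec hkK hld D D' hd x η m0 w hw hv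
    rw [hwj, map_sum]
    refine Finset.sum_eq_zero fun j _ => ?_
    rw [smul_eval]
    change κ j * eval (imv φ x) (MvPolynomial.map φ (wj j)) = 0
    rw [eval_imv, hA _ (hwk j) (hwa j), map_zero, mul_zero]
  · intro m0 h1 hJ w hw hv i
    obtain ⟨N, κ, wj, hκ, hwj, hwk, hwa⟩ := annH_dec hkK hld D D' hd x
      (η ∘ Fin.cast h1.symm) m0 w hw hv
    have h6 : VT D' (imv φ x) (Pi.single m0 (w * X j0 ^ (d m0 - 2))) =
        ∑ j, κ j • imv φ (VT D x (Pi.single m0 (wj j * X j0 ^ (d m0 - 2)))) := by
      have h8 : (Pi.single m0 (w * X j0 ^ (d m0 - 2)) : TP (AlgebraicClosure Ω) n c) =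
          ∑ j, κ j • (Pi.single m0 (MvPolynomial.map φ (wj j * X j0 ^ (d m0 - 2))) :
            TP (AlgebraicClosure Ω) n c) := by
        funext m'
        rw [Finset.sum_apply]
        by_cases hm : m' = m0
        · subst hm
          rw [Pi.single_eq_same]
          conv_lhs => rw [hwj]
          rw [Finset.sum_mul]
          refine Finset.sum_congr rfl fun j _ => ?_
          rw [Pi.smul_apply, Pi.single_eq_same, map_mul, map_pow, map_X, smul_mul_assoc]
        · rw [Pi.single_eq_of_ne hm]
          refine (Finset.sum_eq_zero fun j _ => ?_).symm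
          rw [Pi.smul_apply, Pi.single_eq_of_ne hm, smul_zero]
      rw [h8, map_sum]
      refine Finset.sum_congr rfl fun j _ => ?_
      rw [map_smul, ← single_map, VT_imv φ D D' x hd]
    have h9 : Matrix.det (Matrix.of fun a b => (![imv φ x, imv φ ((η ∘ Fin.cast h1.symm) 0),
        VT D' (imv φ x) (Pi.single m0 (w * X j0 ^ (d m0 - 2)))] :
          Fin 3 → Fin (n + 1) → AlgebraicClosure Ω) a (i b)) =
        ∑ j, κ j * φ (Matrix.det (Matrix.of fun a b => (![x, (η ∘ Fin.cast h1.symm) 0,
        VT D x (Pi.single m0 (wj j * X j0 ^ (d m0 - 2)))] :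
          Fin 3 → Fin (n + 1) → Ω) a (i b))) := by
      rw [h6]
      simp only [Matrix.det_fin_three, Matrix.of_apply, Matrix.cons_val_zero,
        Matrix.cons_val_one, Matrix.cons_val, Finset.sum_apply, Pi.smul_apply, smul_eq_mul,
        map_sub, map_add, map_mul, imv_apply, Finset.mul_sum, mul_add, mul_sub,
        Finset.sum_add_distrib, Finset.sum_sub_distrib]
      congr 1
      · congr 1
        · congr 1
          · congr 1
            · congr 1
              · exact Finset.sum_congr rfl fun j _ => by ring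
              · exact Finset.sum_congr rfl fun j _ => by ring
            · exact Finset.sum_congr rfl fun j _ => by ring
          · exact Finset.sum_congr rfl fun j _ => by ring
        · exact Finset.sum_congr rfl fun j _ => by ring
      · exact Finset.sum_congr rfl fun j _ => by ring
    change Matrix.det (Matrix.of fun a b => (![imv φ x, imv φ ((η ∘ Fin.cast h1.symm) 0),
        VT D' (imv φ x) (Pi.single m0 (w * X j0 ^ (d m0 - 2)))] :
          Fin 3 → Fin (n + 1) → AlgebraicClosure Ω) a (i b)) ∈ K
    rw [h9]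
    exact sum_mem fun j _ => mul_mem (hκ j) (hkK' _ (hJ _ (hwk j) (hwa j) i))

end Pool.Agent.T2C.H2
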